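import Pool.Agent.U174.AK.Stm

set_option autoImplicit false

/-!
# Project AK, package LOSF: the theorem of Łoś for all fragments, and countable saturation
-/

namespace Pool.Agent.U571.AKLos

open Filter Pool.Agent.U174 Pool.Agent.U174.AK

theorem ult_not (p : ℕ → Prop) :
    (¬ ∀ᶠ j in (hyperfilter ℕ : Filter ℕ), p j) ↔ ∀ᶠ j in (hyperfilter ℕ : Filter ℕ), ¬ p j :=
  Ultrafilter.eventually_not.symm

theorem ex_iff {A A' ι : Type} [Nonempty A] {π : (ℕ → A) → A'} (hs : Function.Surjective π)
    (P' : (ι → A') → Prop) (P : ℕ → (ι → A) → Prop)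
    (h : ∀ l : ι → ℕ → A, P' (fun i => π (l i)) ↔
      ∀ᶠ j in (hyperfilter ℕ : Filter ℕ), P j (fun i => l i j)) :
    (∃ e', P' e') ↔ ∀ᶠ j in (hyperfilter ℕ : Filter ℕ), ∃ e', P j e' := by
  classical
  constructor
  · rintro ⟨e', he'⟩
    choose l hl using fun i => hs (e' i)
    have h1 : P' (fun i => π (l i)) := by
      have : (fun i => π (l i)) = e' := funext hl
      rw [this]; exact he'
    filter_upwards [(h l).1 h1] with j hj
    exact ⟨_, hj⟩
  · intro hj
    let w : ℕ → ι → A := fun j =>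
      if h : ∃ e', P j e' then h.choose else fun _ => Classical.arbitrary A
    refine ⟨fun i => π (fun j => w j i), (h (fun i j => w j i)).2 ?_⟩
    filter_upwards [hj] with j hj
    have hw : w j = hj.choose := dif_pos hj
    change P j (w j)
    rw [hw]
    exact hj.choose_spec

theorem all_iff {A A' ι : Type} [Nonempty A] {π : (ℕ → A) → A'} (hs : Function.Surjective π)
    (P' : (ι → A') → Prop) (P : ℕ → (ι → A) → Prop)
    (h : ∀ l : ι → ℕ → A, P' (fun i => π (l i)) ↔
      ∀ᶠ j in (hyperfilter ℕ : Filter ℕ), P j (fun i => l i j)) :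
    (∀ e', P' e') ↔ ∀ᶠ j in (hyperfilter ℕ : Filter ℕ), ∀ e', P j e' := by
  have h1 := ex_iff hs (fun e => ¬ P' e) (fun j e => ¬ P j e) (fun l => by
    rw [h l, ult_not])
  have h2 : (∀ e', P' e') ↔ ¬ ∃ e', ¬ P' e' := by push Not; rfl
  rw [h2, h1, ult_not]
  push Not
  rfl

theorem t_LOS : S_LOS := by
  intro Q A A' _ hA hA' π hS n
  induction n with
  | zero =>
    intro Y φ e
    exact hS.qf Y φ e
  | succ n ih =>
    intro Y φ e
    obtain ⟨b, φ⟩ := φ
    have key : ∀ l : Fin b → ℕ → A,
        Holds hA' n φ (Sum.elim (fun y => π (e y)) (fun i => π (l i))) ↔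
        ∀ᶠ j in (hyperfilter ℕ : Filter ℕ),
          Holds hA n φ (Sum.elim (fun y => e y j) (fun i => l i j)) := by
      intro l
      have h1 := ih _ φ (Sum.elim e l)
      have h2 : (fun y => π (Sum.elim e l y)) =
          Sum.elim (fun y => π (e y)) (fun i => π (l i)) := by
        funext y; cases y <;> rfl
      have h3 : ∀ j, (fun y => Sum.elim e l y j) =
          Sum.elim (fun y => e y j) (fun i => l i j) := by
        intro j; funext y; cases y <;> rfl
      rw [h2] at h1
      rw [h1]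
      simp only [h3]
    by_cases ho : Odd (n + 1)
    · simp only [Holds, if_pos ho]
      exact ex_iff hS.surj (fun e' => Holds hA' n φ (Sum.elim (fun y => π (e y)) e'))
        (fun j e' => Holds hA n φ (Sum.elim (fun y => e y j) e')) key
    · simp only [Holds, if_neg ho]
      exact all_iff hS.surj (fun e' => Holds hA' n φ (Sum.elim (fun y => π (e y)) e'))
        (fun j e' => Holds hA n φ (Sum.elim (fun y => e y j) e')) key

theorem t_FSAT : S_LOS → S_FSAT := by
  intro hL Q A A' _ hA hA' π hS m I a Φ σ hN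
  classical
  choose la hla using fun i => hS.surj (a i)
  have key : ∀ (i : ℕ) (l : ℕ → ℕ → A),
      (Holds hA' m (Φ i) (Sum.elim a (fun k => π (l k))) ↔ σ i) ↔
      ∀ᶠ j in (hyperfilter ℕ : Filter ℕ),
        (Holds hA m (Φ i) (Sum.elim (fun k => la k j) (fun k => l k j)) ↔ σ i) := by
    intro i l
    have h1 := hL Q A A' hA hA' π hS m _ (Φ i) (Sum.elim la l)
    have h2 : (fun y => π (Sum.elim la l y)) = Sum.elim a (fun k => π (l k)) := by
      funext y
      cases y with
      | inl y => exact hla y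
      | inr y => rfl
    have h3 : ∀ j, (fun y => Sum.elim la l y j) =
        Sum.elim (fun k => la k j) (fun k => l k j) := by
      intro j; funext y; cases y <;> rfl
    rw [h2] at h1
    simp only [h3] at h1
    by_cases hσ : σ i
    · simp only [hσ, iff_true]
      exact h1
    · simp only [hσ, iff_false]
      rw [h1, ult_not]
  have hlift : ∀ a' : ℕ → A', ∃ l : ℕ → ℕ → A, a' = fun k => π (l k) := by
    intro a'
    choose l hl using fun k => hS.surj (a' k)
    exact ⟨l, (funext hl).symm⟩
  let C : ℕ → ℕ → Prop := fun j N => ∃ x : ℕ → A, ∀ i < N,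
    (Holds hA m (Φ i) (Sum.elim (fun k => la k j) x) ↔ σ i)
  have hC : ∀ N, ∀ᶠ j in (hyperfilter ℕ : Filter ℕ), C j N := by
    intro N
    obtain ⟨a', ha'⟩ := hN N
    obtain ⟨l, rfl⟩ := hlift a'
    have h4 : ∀ i ∈ Finset.range N, ∀ᶠ j in (hyperfilter ℕ : Filter ℕ),
        (Holds hA m (Φ i) (Sum.elim (fun k => la k j) (fun k => l k j)) ↔ σ i) := fun i hi =>
      (key i l).1 (ha' i (Finset.mem_range.1 hi))
    have h5 := (Finset.eventually_all (Finset.range N)).2 h4
    filter_upwards [h5] with j hj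
    exact ⟨_, fun i hi => hj i (Finset.mem_range.2 hi)⟩
  have hC0 : ∀ j, C j 0 := fun j => ⟨fun _ => Classical.arbitrary A, fun i hi => absurd hi (by omega)⟩
  have hspec : ∀ j, C j (Nat.findGreatest (C j) j) := fun j =>
    Nat.findGreatest_spec (P := C j) (Nat.zero_le j) (hC0 j)
  choose x hx using hspec
  refine ⟨fun k => π (fun j => x j k), fun i => (key i (fun k j => x j k)).2 ?_⟩
  have h6 : ∀ᶠ j in (hyperfilter ℕ : Filter ℕ), i + 1 ≤ j :=
    (eventually_ge_atTop (i + 1)).filter_mono Nat.hyperfilter_le_atTop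
  filter_upwards [h6, hC (i + 1)] with j hj1 hj2
  exact hx j i (Nat.lt_of_succ_le (Nat.le_findGreatest hj1 hj2))

end Pool.Agent.U571.AKLos
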